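import Pool.Agent.R593.Rnd.Polar

/-!
# After adding random reals no uncountable set is homogeneous
-/

set_option autoImplicit false
set_option linter.unusedSectionVars false

namespace Pool.Agent.L5helper46.RP

open Cardinal MeasureTheory Set Filter Topology Pool.Agent.TH773.PSet Pool.Agent.R593.Rnd

universe u v w

section Defs

variable {P : Type u} [Preorder P]

/-- The subset of `K` named by `A` is covered by the range of a function from `ω` to `K`; for a non-empty `K` this
means that it is countable. -/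
def CountableSet {K : Type v} (A : K → Set P) : Set P :=
  fex fun R : ℕ → K → Set P =>
    fand (IsFun R) (fall fun k => fimp (meets (A k)) (fex fun n => meets (R n k)))

variable (P) in
/-- The relation `(K, ω) → (ω₁, ω)`. A colouring of `K × ω` with two colours is given by a name `c` for the set of
the pairs which have the first colour. The sentence says that for every colouring there are an uncountable subset
`A` of `K` and an infinite subset `B` of `ω` such that all elements of `A × B` have the first colour or none of them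
has the first colour. -/
def WeakPolarized (K : Type v) : Set P :=
  fall fun c : K → ℕ → Set P =>
    fex fun A : K → Set P => fex fun B : RName P =>
      fand (fnot (CountableSet A)) (fand (Inf B)
        (disj
          (fall fun k => fall fun n =>
            fimp (fand (meets (A k)) (meets (B n))) (meets (c k n)))
          (fall fun k => fall fun n =>
            fimp (fand (meets (A k)) (meets (B n))) (fnot (meets (c k n))))))

end Defs

section

variable {P : Type u} [Preorder P]

theorem mem_meets_const {φ : Prop} {p : P} : p ∈ meets ({_q : P | φ}) ↔ φ := by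
  constructor
  · intro h
    obtain ⟨r, _, s, hs, _⟩ := h p le_rfl
    exact hs
  · intro h q _
    exact ⟨q, le_rfl, q, h, le_rfl⟩

/-- An uncountable subset is not included in a countable set of the ground model. -/
theorem exists_notMem_of_unc {K : Type v} [Nonempty K] {A : K → Set P} {p : P}
    (hp : p ∈ fnot (CountableSet A)) {C : Set K} (hC : C.Countable) :
    ∃ k, k ∉ C ∧ ∃ q ≤ p, q ∈ meets (A k) := by
  by_contra hcon
  push Not at hcon
  obtain ⟨k0⟩ := ‹Nonempty K›
  obtain ⟨e, he⟩ : ∃ e : ℕ → K, insert k0 C = range e :=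
    (hC.insert k0).exists_eq_range (insert_nonempty _ _)
  refine hp p le_rfl (mem_fex_of (fun n k => {_q : P | e n = k}) fun q hq => ⟨⟨fun n => ?_, ?_⟩, fun k => ?_⟩)
  · exact mem_fex_of (e n) fun r _ => mem_meets_const.2 rfl
  · intro n a b hne r _ hr
    exact hne ((mem_meets_const.1 hr.1).symm.trans (mem_meets_const.1 hr.2))
  · refine mem_fimp.2 fun r hr hrA => ?_
    have hk : k ∈ C := by
      by_contra hk
      exact hcon k hk r (hr.trans hq) hrA
    have h1 : k ∈ range e := he ▸ mem_insert_of_mem _ hk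
    obtain ⟨n, hn⟩ := h1
    exact ⟨r, le_rfl, mem_fex_of n fun s _ => mem_meets_const.2 hn⟩

end

theorem not_weakPolarized {I K : Type} (hK : ℵ₀ < #K) (hKI : #K ≤ #I) (p : Random I) :
    p ∈ fnot (WeakPolarized (Random I) K) := by
  obtain ⟨e⟩ := (Cardinal.le_def _ _).1 hKI
  have : Nonempty K := mk_ne_zero_iff.1 (ne_of_gt (aleph0_pos.trans hK))
  intro q0 _ hq0
  let c : K → ℕ → Set (Random I) := fun k n => AE (coinProduct I) {x | x (e k, n) = true}
  have hcm0 : ∀ k n (v : Bool), MeasurableSet {x : I × ℕ → Bool | x (e k, n) = v} :=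
    fun k n v => measurableSet_eq_fun (measurable_pi_apply (e k, n)) measurable_const
  have hcm : ∀ k n, MeasurableSet {x : I × ℕ → Bool | x (e k, n) = true} :=
    fun k n => hcm0 k n true
  obtain ⟨q1, _, A, hq1⟩ := mem_fex.1 (hq0 c) q0 le_rfl
  obtain ⟨q, _, B, hA, hB, hdisj⟩ := mem_fex.1 hq1 q1 le_rfl
  -- representation of `B`
  obtain ⟨X, hX, hBX⟩ := exists_rep B
  choose T hT hT' using fun n => exists_countable (hX n)
  have hTc : (⋃ n, T n).Countable := countable_iUnion hT
  have hdep : ∀ n, Dep (⋃ n, T n) (X n) := fun n => (hT' n).mono (subset_iUnion T n)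
  have hinf : ∀ r ≤ q, ∀ᵐ x ∂(coinProduct I), x ∈ r.1 → ∀ N, ∃ n, N ≤ n ∧ x ∈ X n := by
    intro r hr
    have h1 : r ∈ Inf (hat (coinProduct I) X) := by
      have h2 : Inf B = Inf (hat (coinProduct I) X) := by
        unfold Inf
        simp only [hBX, meets_hat hX]
      rw [← h2]
      exact (reg_inf _).1 _ hB _ hr
    rw [inf_hat hX, mem_AE_iff] at h1
    exact h1
  let C : Set K := e ⁻¹' (Prod.fst '' ⋃ n, T n)
  have hC : C.Countable := (hTc.image _).preimage e.injective
  -- the two cases
  obtain ⟨r, hr, hr'⟩ := mem_disj.1 hdisj q le_rfl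
  obtain ⟨v, hv⟩ : ∃ v : Bool, ∀ k n, r ∈ fimp (fand (meets (A k)) (meets (B n)))
      (AE (coinProduct I) {x | x (e k, n) = v}) := by
    rcases hr' with hr' | hr'
    · refine ⟨true, fun k n => ?_⟩
      have h1 := hr' k n
      have h2 : meets (c k n) = AE (coinProduct I) {x | x (e k, n) = true} := meets_AE (hcm k n)
      beta_reduce at h1
      rwa [h2] at h1
    · refine ⟨false, fun k n => ?_⟩
      have h1 := hr' k n
      have h2 : fnot (meets (c k n)) = AE (coinProduct I) {x | x (e k, n) = false} := by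
        have h3 : meets (c k n) = AE (coinProduct I) {x | x (e k, n) = true} := meets_AE (hcm k n)
        rw [h3, fnot_AE (hcm k n)]
        congr 1
        ext x
        simp
      beta_reduce at h1
      rwa [h2] at h1
  obtain ⟨k, hkC, s, hs, hsA⟩ := exists_notMem_of_unc (down_fnot _ _ hA _ hr) hC
  have hki : ∀ t ∈ ⋃ n, T n, t.1 ≠ e k := by
    intro t ht h
    exact hkC ⟨t, ht, h⟩
  have hvm : ∀ n, MeasurableSet {x : I × ℕ → Bool | x (e k, n) = v} := fun n => hcm0 k n v
  have h1 : ∀ n, ∀ᵐ x ∂(coinProduct I), x ∈ s.1 → x ∈ X n → x (e k, n) = v := by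
    intro n
    by_contra hcon
    have hE : MeasurableSet (X n ∩ {x | x (e k, n) = v}ᶜ) := (hX n).inter (hvm n).compl
    have hpos : coinProduct I (s.1 ∩ (X n ∩ {x | x (e k, n) = v}ᶜ)) ≠ 0 := by
      intro h0
      apply hcon
      rw [measure_eq_zero_iff_ae_notMem] at h0
      filter_upwards [h0] with x hx h2 h3
      by_contra h4
      exact hx ⟨h2, h3, h4⟩
    let t : Random I := restr s _ hE hpos
    have ht : t ≤ s := restr_le _ _ _ _
    have htE : t ∈ AE (coinProduct I) (X n ∩ {x | x (e k, n) = v}ᶜ) := restr_mem _ _ _ _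
    rw [← fand_AE] at htE
    obtain ⟨t', ht', h5⟩ := mem_fimp.1 (hv k n) t (ht.trans hs) ⟨(reg_meets _).1 _ hsA _ ht, by
      rw [hBX]; exact htE.1⟩
    exact not_AE_compl h5 (down_AE _ _ htE.2 _ ht')
  refine s.2.2 (measure_mono_null (t := {x | (∀ N, ∃ n, N ≤ n ∧ x ∈ X n) ∧
    ∀ n, x ∈ X n → x (e k, n) = v} ∪ (s.1 ∩ {x | (∀ N, ∃ n, N ≤ n ∧ x ∈ X n) ∧
    ∀ n, x ∈ X n → x (e k, n) = v}ᶜ)) ?_ ?_)
  · intro x hx
    by_cases h : x ∈ {x | (∀ N, ∃ n, N ≤ n ∧ x ∈ X n) ∧ ∀ n, x ∈ X n → x (e k, n) = v}
    · exact Or.inl h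
    · exact Or.inr ⟨hx, h⟩
  · refine measure_union_null (null_const hdep hki v) ?_
    refine measure_eq_zero_iff_ae_notMem.2 ?_
    filter_upwards [ae_all_iff.2 h1, hinf s (hs.trans hr)] with x h2 h3 ⟨h4, h5⟩
    exact h5 ⟨h3 h4, fun n hn => h2 n h4 hn⟩

/-! ### The trivial forcing and the dominating number -/

/-- The relation `(K, ω) → (ω₁, ω)`: for every `c : K × ω → 2` there are an uncountable set `A ⊆ K` and an infinite
set `B ⊆ ω` such that `c` is constant on `A × B`. -/
def WeakRel (K : Type v) : Prop :=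
  ∀ c : K → ℕ → Bool, ∃ (A : Set K) (B : Set ℕ), ¬ A.Countable ∧ B.Infinite ∧
    ∃ i : Bool, ∀ a ∈ A, ∀ n ∈ B, c a n = i

theorem unit_countableSet {K : Type v} [Nonempty K] {A : K → Set Unit} {p : Unit} :
    p ∈ CountableSet A ↔ {k | () ∈ A k}.Countable := by
  simp only [CountableSet, unit_fex, mem_fand, unit_isFun, mem_fall, unit_meets, unit_fimp]
  constructor
  · rintro ⟨R, ⟨f, hf⟩, h2⟩
    refine (countable_range f).mono fun k hk => ?_
    obtain ⟨n, hn⟩ := h2 k hk
    exact ⟨n, (hf n k).1 hn⟩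
  · intro h
    obtain ⟨k0⟩ := ‹Nonempty K›
    obtain ⟨e, he⟩ : ∃ e : ℕ → K, insert k0 {k | () ∈ A k} = range e :=
      (h.insert k0).exists_eq_range (insert_nonempty _ _)
    refine ⟨fun n k => {_p | e n = k}, ⟨e, fun n k => Iff.rfl⟩, fun k hk => ?_⟩
    have h1 : k ∈ range e := he ▸ mem_insert_of_mem _ hk
    obtain ⟨n, hn⟩ := h1
    exact ⟨n, hn⟩

/-- Over the trivial forcing the sentence `WeakPolarized` is the relation `WeakRel`. -/
theorem unit_weakPolarized {K : Type v} [Nonempty K] {p : Unit} :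
    p ∈ WeakPolarized Unit K ↔ WeakRel K := by
  simp only [WeakPolarized, mem_fall, unit_fex, mem_fand, unit_countableSet, unit_inf, unit_disj,
    unit_fimp, unit_fnot, unit_meets]
  constructor
  · intro h c
    obtain ⟨A, B, hA, hB, hAB⟩ := h fun k n => {_p | c k n = true}
    refine ⟨{k | () ∈ A k}, {n | () ∈ B n}, hA, hB, ?_⟩
    rcases hAB with hAB | hAB
    · exact ⟨true, fun k hk n hn => hAB k n ⟨hk, hn⟩⟩
    · refine ⟨false, fun k hk n hn => ?_⟩
      have h1 : ¬ (c k n = true) := hAB k n ⟨hk, hn⟩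
      simpa using h1
  · intro h c
    classical
    obtain ⟨A, B, hA, hB, i, hAB⟩ := h fun k n => decide (() ∈ c k n)
    refine ⟨fun k => {_p | k ∈ A}, fun n => {_p | n ∈ B}, hA, hB, ?_⟩
    cases i with
    | true => exact Or.inl fun k n hkn => of_decide_eq_true (hAB k hkn.1 n hkn.2)
    | false => exact Or.inr fun k n hkn => of_decide_eq_false (hAB k hkn.1 n hkn.2)

/-- The dominating number is uncountable. -/
theorem aleph0_lt_dNum : ℵ₀ < dNum := by
  by_contra hcon
  obtain ⟨D, hD, hDc⟩ := dNum_spec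
  have hc : D.Countable := by
    rw [← Cardinal.le_aleph0_iff_set_countable, hDc]
    exact not_lt.1 hcon
  obtain ⟨g0, hg0, _⟩ := hD fun _ => 0
  obtain ⟨e, he⟩ := hc.exists_eq_range ⟨g0, hg0⟩
  obtain ⟨g, hg, N, hN⟩ := hD fun n => ∑ i ∈ Finset.range (n + 1), e i n + 1
  rw [he] at hg
  obtain ⟨i, rfl⟩ := hg
  have h1 := hN (max N i) (le_max_left _ _)
  have h2 : e i (max N i) ≤ ∑ j ∈ Finset.range (max N i + 1), e j (max N i) :=
    Finset.single_le_sum (f := fun j => e j (max N i)) (fun _ _ => Nat.zero_le _)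
      (Finset.mem_range.2 (by omega))
  beta_reduce at h1
  omega

end Pool.Agent.L5helper46.RP
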